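import Pool.Agent.MSA.Hops

/-!
Deterministic hop count, part 2: counting.
-/

set_option linter.unusedVariables false
set_option linter.unusedSectionVars false
set_option linter.unnecessarySimpa false

open scoped BigOperators

namespace Pool.Agent.MSA.LD

variable {V : Type*} [Fintype V] [DecidableEq V]

lemma window_card {p : ℕ → V} {f : ℕ → ℝ} (hf : Monotone f) {h l : ℕ} {R hi : ℝ} (hR : 0 ≤ R)
    (lo : ℝ → Prop) (hlo : ∀ s t, s ≤ t → lo s → lo t)
    (hwin : ∀ s t, lo s → t ≤ hi → t - s ≤ l * R) (A : Finset V)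
    (hA : ∀ u ∈ A, ∃ j, p j = u ∧ lo (f j) ∧ f j ≤ hi ∧
      (h ≤ j → lo (f (j - h)) → ∃ i, j - h ≤ i ∧ i < j ∧ R < f (i+1) - f i)) :
    A.card ≤ h * (l + 1) := by
  classical
  rcases A.eq_empty_or_nonempty with hemp | ⟨u0, hu0⟩
  · simp [hemp]
  have hex : ∃ j, lo (f j) := by
    obtain ⟨j, -, hj, -⟩ := hA u0 hu0
    exact ⟨j, hj⟩
  set a := Nat.find hex with ha
  have hla : lo (f a) := Nat.find_spec hex
  have hmin : ∀ j, lo (f j) → a ≤ j := fun j hj => Nat.find_min' hex hj
  have hup : ∀ j, a ≤ j → lo (f j) := fun j hj => hlo _ _ (hf hj) hla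
  choose! J hJ using hA
  set N := A.sup J with hN
  have hJN : ∀ u ∈ A, J u ≤ N := fun u hu => Finset.le_sup hu
  set B : Finset ℕ := (Finset.range N).filter (fun i => a ≤ i ∧ f (i+1) ≤ hi ∧ R < f (i+1) - f i)
    with hB
  have hBcard : B.card ≤ l := by
    rcases B.eq_empty_or_nonempty with hBe | hBn
    · simp [hBe]
    set m := B.max' hBn with hm
    have hmB : m ∈ B := Finset.max'_mem B hBn
    have hmB' := (Finset.mem_filter.mp hmB).2
    have h1 : (B.card : ℝ) * R ≤ ∑ i ∈ B, (f (i+1) - f i) := by
      rw [← nsmul_eq_mul]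
      exact Finset.card_nsmul_le_sum _ _ _ (fun i hi => (Finset.mem_filter.mp hi).2.2.2.le)
    have h2 : ∑ i ∈ B, (f (i+1) - f i) ≤ ∑ i ∈ Finset.Ico a (m+1), (f (i+1) - f i) := by
      refine Finset.sum_le_sum_of_subset_of_nonneg ?_ (fun i _ _ => sub_nonneg.mpr (hf (by omega)))
      intro i hi
      have h3 := Finset.le_max' B i hi
      have h4 := (Finset.mem_filter.mp hi).2.1
      exact Finset.mem_Ico.mpr ⟨h4, by omega⟩
    have h3 : ∑ i ∈ Finset.Ico a (m+1), (f (i+1) - f i) = f (m+1) - f a :=
      Finset.sum_Ico_sub f (by omega)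
    have h4 := hwin (f a) (f (m+1)) hla hmB'.2.1
    rcases hR.eq_or_lt with hR0 | hRp
    · exfalso
      have e1 : f a ≤ f m := hf hmB'.1
      have e2 := hmB'.2.2
      rw [← hR0] at h4 e2
      linarith
    have h5 : (B.card : ℝ) * R ≤ l * R := by linarith
    have h6 : (B.card : ℝ) ≤ l := le_of_mul_le_mul_right h5 hRp
    exact_mod_cast h6
  have hcover : A ⊆ (Finset.range h).image (fun s => p (a + s)) ∪
      (B ×ˢ Finset.range h).image (fun q => p (q.1 + q.2 + 1)) := by
    intro u hu
    obtain ⟨h1, h2, h3, h4⟩ := hJ u hu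
    have haj := hmin _ h2
    by_cases hlt : J u < a + h
    · refine Finset.mem_union_left _ (Finset.mem_image.mpr ⟨J u - a, Finset.mem_range.mpr (by omega), ?_⟩)
      rw [show a + (J u - a) = J u by omega]; exact h1
    · push Not at hlt
      obtain ⟨i, hi1, hi2, hi3⟩ := h4 (by omega) (hup _ (by omega))
      refine Finset.mem_union_right _ (Finset.mem_image.mpr ⟨(i, J u - i - 1), ?_, ?_⟩)
      · rw [Finset.mem_product]
        refine ⟨Finset.mem_filter.mpr ⟨Finset.mem_range.mpr ?_, by omega, ?_, hi3⟩,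
          Finset.mem_range.mpr ?_⟩
        · have := hJN u hu; simp only; omega
        · exact (hf (by simp only; omega)).trans h3
        · simp only; omega
      · simp only
        rw [show i + (J u - i - 1) + 1 = J u by omega]; exact h1
  calc A.card ≤ _ := Finset.card_le_card hcover
    _ ≤ _ := Finset.card_union_le _ _
    _ ≤ h + l * h := by
        refine add_le_add ?_ ?_
        · exact (Finset.card_image_le).trans (by simp)
        · refine (Finset.card_image_le).trans ?_
          rw [Finset.card_product, Finset.card_range]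
          exact Nat.mul_le_mul_right h hBcard
    _ = h * (l + 1) := by ring

section dual

variable {r : V} {γ : V → V → ℝ} {y : Finset V → ℝ} {M : V → V}

/-- number of jumps before index `j`. -/
noncomputable def rk (y : Finset V → ℝ) (M : V → V) (x : V) (j : ℕ) : ℕ :=
  ((Finset.range j).filter (fun i => T y x (M^[i] x) < T y x (M^[i+1] x))).card

lemma rk_mono (y : Finset V → ℝ) (M : V → V) (x : V) {i j : ℕ} (hij : i ≤ j) :
    rk y M x i ≤ rk y M x j := by
  unfold rk
  refine Finset.card_le_card (Finset.filter_subset_filter _ ?_)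
  intro a ha
  rw [Finset.mem_range] at ha ⊢
  omega

lemma rk_le_add (y : Finset V → ℝ) (M : V → V) (x : V) (i s : ℕ) :
    rk y M x (i + s) ≤ rk y M x i + s := by
  induction s with
  | zero => simp
  | succ s ih =>
    have : rk y M x (i + s + 1) ≤ rk y M x (i + s) + 1 := by
      unfold rk
      rw [Finset.range_add_one, Finset.filter_insert]
      split_ifs
      · exact Finset.card_insert_le _ _
      · omega
    rw [← add_assoc]
    omega

lemma rk_succ_of_jump (y : Finset V → ℝ) (M : V → V) (x : V) {j : ℕ}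
    (hj : T y x (M^[j] x) < T y x (M^[j+1] x)) : rk y M x (j+1) = rk y M x j + 1 := by
  unfold rk
  rw [Finset.range_add_one, Finset.filter_insert, if_pos hj, Finset.card_insert_of_notMem]
  simp

lemma IsDual.rk_eq_of_T_eq (h : IsDual r γ y M) (x : V) {i j : ℕ}
    (hij : T y x (M^[i] x) = T y x (M^[j] x)) : rk y M x i = rk y M x j := by
  wlog hle : i ≤ j generalizing i j
  · exact (this hij.symm (by omega)).symm
  unfold rk
  congr 1
  ext a
  simp only [Finset.mem_filter, Finset.mem_range]
  constructor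
  · rintro ⟨h1, h2⟩; exact ⟨by omega, h2⟩
  · rintro ⟨h1, h2⟩
    refine ⟨?_, h2⟩
    by_contra hcon
    have h3 := h.T_mono x (show i ≤ a by omega)
    have h4 := h.T_mono x (show a + 1 ≤ j by omega)
    simp only at h3 h4
    linarith

/-- the vertices which follow within `h` steps a side edge, and are jumps. -/
lemma IsDual.side_card (hd : IsDual r γ y M) {g : V → V} (hg : ∀ u, γ u (g u) = 0)
    {Q : Finset V} (hQ : ∀ A : Finset V, A.Nonempty → (∀ u ∈ A, g u ∈ A) → ∃ x ∈ A, x ∈ Q)
    (x : V) (h : ℕ) (A : Finset V)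
    (hA : ∀ u ∈ A, ∃ i j, M^[j] x = u ∧ T y x (M^[j] x) < T y x (M^[j+1] x) ∧ i < j ∧ j ≤ i + h ∧
      0 < side y x (M^[i] x) (M^[i+1] x)) : A.card ≤ Q.card * (h + 1) := by
  classical
  choose! I J hIJ using hA
  have hz : ∀ u ∈ A, ∃ z ∈ Q, ∃ S, y S ≠ 0 ∧ M^[I u] x ∈ S ∧ x ∉ S ∧ z ∈ S := by
    intro u hu
    obtain ⟨S, hS, h1, h2, h3⟩ := hd.exists_side (hIJ u hu).2.2.2.2
    obtain ⟨z, hzS, hzQ⟩ := hQ S (hd.good S hS).1 (fun u hu => hd.closed hg hS hu)
    exact ⟨z, hzQ, S, hS, h1, h3, hzS⟩
  choose! Z hZ using hz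
  set F : V → V × ℕ := fun u => (Z u, rk y M x (J u) - rk y M x (I u)) with hF
  have hmaps : ∀ u ∈ A, F u ∈ Q ×ˢ Finset.range (h+1) := by
    intro u hu
    obtain ⟨h1, h2, h3, h4, h5⟩ := hIJ u hu
    rw [Finset.mem_product]
    refine ⟨(hZ u hu).1, Finset.mem_range.mpr ?_⟩
    have h6 := rk_le_add y M x (I u) (J u - I u)
    rw [show I u + (J u - I u) = J u by omega] at h6
    simp only [hF]
    omega
  have hinj : Set.InjOn F A := by
    intro u hu v hv huv
    have hu' := Finset.mem_coe.mp hu
    have hv' := Finset.mem_coe.mp hv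
    obtain ⟨h1, h2, h3, h4, h5⟩ := hIJ u hu'
    obtain ⟨g1, g2, g3, g4, g5⟩ := hIJ v hv'
    obtain ⟨-, S, hS, hS1, hS2, hS3⟩ := hZ u hu'
    obtain ⟨-, S', hS', hS1', hS2', hS3'⟩ := hZ v hv'
    have hZeq : Z u = Z v := congrArg Prod.fst huv
    have hrk : rk y M x (J u) - rk y M x (I u) = rk y M x (J v) - rk y M x (I v) :=
      congrArg Prod.snd huv
    have hT : T y x (M^[I u] x) = T y x (M^[I v] x) := by
      rcases lt_trichotomy (T y x (M^[I u] x)) (T y x (M^[I v] x)) with hlt | heq | hgt
      · have := hd.side_disjoint hlt hS hS' hS1 hS2 hS1' hS2'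
        exact absurd (hZeq ▸ hS3') (Finset.disjoint_left.mp this hS3)
      · exact heq
      · have := hd.side_disjoint hgt hS' hS hS1' hS2' hS1 hS2
        exact absurd hS3 (Finset.disjoint_left.mp this (hZeq ▸ hS3'))
    have hrkI := hd.rk_eq_of_T_eq x hT
    have hm1 := rk_mono y M x (show I u ≤ J u by omega)
    have hm2 := rk_mono y M x (show I v ≤ J v by omega)
    have hrkJ : rk y M x (J u) = rk y M x (J v) := by omega
    have hJ : J u = J v := by
      rcases lt_trichotomy (J u) (J v) with hlt | heq | hgt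
      · have e1 := rk_succ_of_jump y M x h2
        have e2 := rk_mono y M x (show J u + 1 ≤ J v by omega)
        omega
      · exact heq
      · have e1 := rk_succ_of_jump y M x g2
        have e2 := rk_mono y M x (show J v + 1 ≤ J u by omega)
        omega
    rw [← h1, ← g1, hJ]
  calc A.card ≤ (Q ×ˢ Finset.range (h+1)).card :=
        Finset.card_le_card_of_injOn F hmaps hinj
    _ = Q.card * (h+1) := by rw [Finset.card_product, Finset.card_range]

/-- the bad set outside which the hops are counted chain by chain. -/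
noncomputable def glob (M : V → V) (K h : ℕ) (L0 : Finset V) (W Z X Bad : ℕ → Finset V) :
    Finset V :=
  (Z 0)ᶜ ∪ L0 ∪ (W K)ᶜ ∪ (Finset.range (K+1)).biUnion
    (fun i => Bad i ∪ ((X i) ×ˢ Finset.range h).image (fun q => M^[q.2+1] q.1))

lemma glob_card (M : V → V) (K h : ℕ) (L0 : Finset V) (W Z X Bad : ℕ → Finset V) :
    (glob M K h L0 W Z X Bad).card ≤ (Z 0)ᶜ.card + L0.card + (W K)ᶜ.card +
      ∑ i ∈ Finset.range (K+1), ((Bad i).card + h * (X i).card) := by
  unfold glob
  refine (Finset.card_union_le _ _).trans (add_le_add ?_ ?_)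
  · refine (Finset.card_union_le _ _).trans (add_le_add ?_ le_rfl)
    exact Finset.card_union_le _ _
  · refine Finset.card_biUnion_le.trans (Finset.sum_le_sum (fun i _ => ?_))
    refine (Finset.card_union_le _ _).trans (add_le_add le_rfl ?_)
    refine Finset.card_image_le.trans ?_
    rw [Finset.card_product, Finset.card_range, mul_comm]

/-- **Deterministic hop count.** -/
theorem IsDual.card_expensive (hd : IsDual r γ y M) {g : V → V} (hg : ∀ u, γ u (g u) = 0)
    {Q : Finset V} (hQ : ∀ A : Finset V, A.Nonempty → (∀ u ∈ A, g u ∈ A) → ∃ x ∈ A, x ∈ Q)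
    (K h l : ℕ) (R : ℕ → ℝ) (hR : ∀ i ≤ K, 0 ≤ R i)
    (L0 : Finset V) (W Z X Bad : ℕ → Finset V)
    (h1 : ∀ i ≤ K, ∀ u ∈ Z i, ∀ v ∈ W i, ∃ n ≤ l, ∃ q : ℕ → V, q 0 = u ∧ q n = v ∧
      ∀ j < n, q j = q (j+1) ∨ γ (q j) (q (j+1)) ≤ R i)
    (h2 : ∀ i < K, ∃ w, w ∈ W i ∧ w ∈ Z (i+1))
    (h3 : ∀ u ∈ L0, u ∉ X 0 → ∀ v, u ≠ v → γ u v ≤ R 0 → v ∈ L0)
    (hB0 : ∀ q : ℕ → V, (∀ i j, i ≤ h → j ≤ h → q i = q j → i = j) → (∀ j ≤ h, q j ∉ L0) →
      (∀ j < h, q j ∉ X 0 ∧ γ (q j) (q (j+1)) ≤ R 0) → q h ∈ Bad 0)
    (hB : ∀ i < K, ∀ q : ℕ → V, (∀ i j, i ≤ h → j ≤ h → q i = q j → i = j) →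
      (∀ j ≤ h, q j ∉ W i) →
      (∀ j < h, q j ∉ X (i+1) ∧ γ (q j) (q (j+1)) ≤ R (i+1)) → q h ∈ Bad (i+1)) :
    (Finset.univ.filter (fun u => u ≠ r ∧ 0 < γ u (M u))).card ≤
      (Z 0)ᶜ.card + L0.card + (W K)ᶜ.card +
      ∑ i ∈ Finset.range (K+1), ((Bad i).card + h * (X i).card) +
      Q.card * ((K+1) * (h * (l+1)) + Q.card * (h+1)) := by
  classical
  set D := Finset.univ.filter (fun u => u ≠ r ∧ 0 < γ u (M u)) with hD
  rcases (Z 0).eq_empty_or_nonempty with hZe | hZn
  · have : D.card ≤ (Z 0)ᶜ.card := by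
      rw [hZe]
      exact Finset.card_le_card (by simp)
    omega
  set G := glob M K h L0 W Z X Bad with hG
  have hGc := glob_card M K h L0 W Z X Bad
  have hGZ : ∀ u, u ∉ G → u ∈ Z 0 := by
    intro u hu
    by_contra hn
    exact hu (by simp [hG, glob, hn])
  have hGL : ∀ u, u ∉ G → u ∉ L0 := by
    intro u hu hn
    exact hu (by simp [hG, glob, hn])
  have hGW : ∀ u, u ∉ G → u ∈ W K := by
    intro u hu
    by_contra hn
    exact hu (by simp [hG, glob, hn])
  have hGB : ∀ u, u ∉ G → ∀ i ≤ K, u ∉ Bad i := by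
    intro u hu i hi hn
    refine hu (Finset.mem_union_right _ (Finset.mem_biUnion.mpr ⟨i, ?_, ?_⟩))
    · exact Finset.mem_range.mpr (by omega)
    · exact Finset.mem_union_left _ hn
  have hGX : ∀ u, u ∉ G → ∀ i ≤ K, ∀ w ∈ X i, ∀ s < h, M^[s+1] w ≠ u := by
    intro u hu i hi w hw s hs hn
    refine hu (Finset.mem_union_right _ (Finset.mem_biUnion.mpr ⟨i, ?_, ?_⟩))
    · exact Finset.mem_range.mpr (by omega)
    · refine Finset.mem_union_right _ (Finset.mem_image.mpr ⟨(w, s), ?_, hn⟩)
      exact Finset.mem_product.mpr ⟨hw, Finset.mem_range.mpr hs⟩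
  set Dx : V → Finset V := fun x => D.filter (fun u => u ∉ G ∧
    ∃ j, M^[j] x = u ∧ T y x (M^[j] x) < T y x (M^[j+1] x)) with hDx
  have hcover : D ⊆ G ∪ Q.biUnion Dx := by
    intro u hu
    by_cases hug : u ∈ G
    · exact Finset.mem_union_left _ hug
    · have hu' := (Finset.mem_filter.mp hu).2
      obtain ⟨x, hxQ, j, hj1, hj2⟩ := hd.exists_jump hg hQ hu'.1 hu'.2
      refine Finset.mem_union_right _ (Finset.mem_biUnion.mpr ⟨x, hxQ, ?_⟩)
      exact Finset.mem_filter.mpr ⟨hu, hug, j, hj1, hj2⟩
  have hmain : ∀ x, (Dx x).card ≤ (K+1) * (h * (l+1)) + Q.card * (h+1) := by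
    intro x
    set f : ℕ → ℝ := fun j => T y x (M^[j] x) with hf
    have hfm : Monotone f := hd.T_mono x
    obtain ⟨w0, hw0, hw0min⟩ := Finset.exists_min_image (Z 0) (fun w => T y x w) hZn
    set τ := T y x w0 with hτ
    set t : ℕ → ℝ := fun i => Nat.rec (τ + l * R 0) (fun n a => a + l * R (n+1)) i with ht
    have ht0 : t 0 = τ + l * R 0 := rfl
    have hts : ∀ i, t (i+1) = t i + l * R (i+1) := fun i => rfl
    have hTpath : ∀ i ≤ K, ∀ u ∈ Z i, ∀ v ∈ W i, T y x v ≤ T y x u + l * R i := by
      intro i hi u hu v hv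
      obtain ⟨n, hn, q, hq0, hqn, hq⟩ := h1 i hi u hu v hv
      have := hd.T_path x (hR i hi) q n hq
      rw [hq0, hqn] at this
      have hn' : (n : ℝ) ≤ l := by exact_mod_cast hn
      have hRi := hR i hi
      nlinarith
    have hW : ∀ i ≤ K, ∀ v ∈ W i, T y x v ≤ t i := by
      intro i
      induction i with
      | zero =>
        intro _ v hv
        rw [ht0]
        exact hTpath 0 (by omega) w0 hw0 v hv
      | succ i ih =>
        intro hi v hv
        obtain ⟨w, hw1, hw2⟩ := h2 i (by omega)
        have e1 := ih (by omega) w hw1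
        have e2 := hTpath (i+1) hi w hw2 v hv
        rw [hts]
        linarith
    -- windows
    set lo : ℕ → ℝ → Prop := fun k s => match k with
      | 0 => τ ≤ s
      | (k+1) => t k < s with hlo
    have hlo_mono : ∀ k s s', s ≤ s' → lo k s → lo k s' := by
      intro k s s' hss
      cases k with
      | zero => intro h; exact le_trans h hss
      | succ k => intro h; exact lt_of_lt_of_le h hss
    have hlo_win : ∀ k s s', lo k s → s' ≤ t k → s' - s ≤ l * R k := by
      intro k s s'
      cases k with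
      | zero => intro (h : τ ≤ s) h'; rw [ht0] at h'; linarith
      | succ k => intro (h : t k < s) h'; rw [hts] at h'; linarith
    set A2 := (Dx x).filter (fun u => ∃ i j, M^[j] x = u ∧
      T y x (M^[j] x) < T y x (M^[j+1] x) ∧ i < j ∧ j ≤ i + h ∧
      0 < side y x (M^[i] x) (M^[i+1] x)) with hA2
    have hA2c : A2.card ≤ Q.card * (h+1) :=
      hd.side_card hg hQ x h A2 (fun u hu => (Finset.mem_filter.mp hu).2)
    set Rk : ℕ → Finset V := fun k => (Dx x).filter (fun u => u ∉ A2 ∧ lo k (T y x u) ∧
      T y x u ≤ t k) with hRk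
    have hcov : Dx x ⊆ A2 ∪ (Finset.range (K+1)).biUnion Rk := by
      intro u hu
      by_cases hA : u ∈ A2
      · exact Finset.mem_union_left _ hA
      refine Finset.mem_union_right _ ?_
      have hu' := (Finset.mem_filter.mp hu).2
      have hlow : τ ≤ T y x u := hw0min u (hGZ u hu'.1)
      have hex : ∃ k, T y x u ≤ t k := ⟨K, hW K le_rfl u (hGW u hu'.1)⟩
      have hkK : Nat.find hex ≤ K := Nat.find_min' hex (hW K le_rfl u (hGW u hu'.1))
      refine Finset.mem_biUnion.mpr ⟨Nat.find hex, Finset.mem_range.mpr (by omega), ?_⟩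
      refine Finset.mem_filter.mpr ⟨hu, hA, ?_, Nat.find_spec hex⟩
      rcases hk : Nat.find hex with _ | k
      · exact hlow
      · have := Nat.find_min hex (m := k) (by omega)
        push Not at this
        exact this
    have hRkc : ∀ k ∈ Finset.range (K+1), (Rk k).card ≤ h * (l+1) := by
      intro k hk
      have hkK : k ≤ K := by have := Finset.mem_range.mp hk; omega
      refine window_card (p := fun j => M^[j] x) (f := f) hfm (hR k hkK) (lo k)
        (hlo_mono k) (hlo_win k) (Rk k) ?_
      intro u hu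
      obtain ⟨huD, huA, hulo, huhi⟩ := Finset.mem_filter.mp hu
      obtain ⟨huD', huG, j, hj1, hj2⟩ := Finset.mem_filter.mp huD
      have hur : u ≠ r := (Finset.mem_filter.mp huD').2.1
      have hfj : f j = T y x u := by rw [hf]; simp only; rw [hj1]
      refine ⟨j, hj1, by rw [hfj]; exact hulo, by rw [hfj]; exact huhi, ?_⟩
      intro hhj hloj
      by_contra hcon
      push Not at hcon
      -- none of the previous vertices is the root
      have hnr : ∀ i ≤ j, M^[i] x ≠ r := by
        intro i hi he
        have : M^[j] x = r := by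
          rw [show j = (j - i) + i by omega, Function.iterate_add_apply, he]
          have : ∀ n, M^[n] r = r := by
            intro n
            induction n with
            | zero => rfl
            | succ n ih => rw [Function.iterate_succ_apply', ih, hd.arb.1]
          exact this _
        exact hur (hj1.symm.trans this)
      have hside : ∀ i, j - h ≤ i → i < j → side y x (M^[i] x) (M^[i+1] x) = 0 := by
        intro i hi1 hi2
        by_contra hs
        have hs' : 0 < side y x (M^[i] x) (M^[i+1] x) :=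
          lt_of_le_of_ne (hd.side_nonneg x _ _) (Ne.symm hs)
        exact huA (Finset.mem_filter.mpr ⟨huD, i, j, hj1, hj2, hi2, by omega, hs'⟩)
      have hedge : ∀ i, j - h ≤ i → i < j → γ (M^[i] x) (M^[i+1] x) ≤ R k := by
        intro i hi1 hi2
        rw [hd.step_eq x i (hnr i hi2.le), hside i hi1 hi2, add_zero]
        exact hcon i hi1 hi2
      set q : ℕ → V := fun s => M^[j - h + s] x with hq
      have hqh : q h = u := by rw [hq]; simp only; rw [Nat.sub_add_cancel hhj]; exact hj1
      have hinj : ∀ a b, a ≤ h → b ≤ h → q a = q b → a = b := by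
        intro a b ha hb hab
        rcases lt_trichotomy a b with hlt | heq | hgt
        · exact absurd (hd.arb.iterate_inj (show j - h + a < j - h + b by omega) hab)
            (hnr _ (by omega))
        · exact heq
        · exact absurd (hd.arb.iterate_inj (show j - h + b < j - h + a by omega) hab.symm)
            (hnr _ (by omega))
      have hX : ∀ s < h, q s ∉ X k := by
        intro s hs hmem
        refine hGX u huG k hkK (q s) hmem (h - s - 1) (by omega) ?_
        rw [hq]
        simp only
        rw [← Function.iterate_add_apply, show h - s - 1 + 1 + (j - h + s) = j by omega]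
        exact hj1
      have hγ : ∀ s < h, γ (q s) (q (s+1)) ≤ R k := by
        intro s hs
        exact hedge (j - h + s) (by omega) (by omega)
      have hbad : q h ∈ Bad k := by
        cases k with
        | zero =>
          refine hB0 q hinj ?_ (fun s hs => ⟨hX s hs, hγ s hs⟩)
          -- backward closedness
          have hback : ∀ d, d ≤ h → q (h - d) ∉ L0 := by
            intro d
            induction d with
            | zero => intro _; rw [Nat.sub_zero, hqh]; exact hGL u huG
            | succ d ih =>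
              intro hdh hmem
              refine ih (by omega) ?_
              have h5 := hX (h - (d+1)) (by omega)
              have h6 := hγ (h - (d+1)) (by omega)
              rw [show h - (d+1) + 1 = h - d by omega] at h6
              refine h3 _ hmem h5 _ (fun he => ?_) h6
              have := hinj _ _ (by omega) (by omega) he
              omega
          intro s hs
          have := hback (h - s) (by omega)
          rwa [show h - (h - s) = s by omega] at this
        | succ k =>
          refine hB k (by omega) q hinj ?_ (fun s hs => ⟨hX s hs, hγ s hs⟩)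
          intro s hs hmem
          have e1 := hW k (by omega) (q s) hmem
          have e2 : f (j - h) ≤ f (j - h + s) := hfm (by omega)
          have e3 : t k < f (j - h) := hloj
          have e4 : f (j - h + s) = T y x (q s) := rfl
          linarith
      rw [hqh] at hbad
      exact hGB u huG k hkK hbad
    calc (Dx x).card ≤ _ := Finset.card_le_card hcov
      _ ≤ _ := Finset.card_union_le _ _
      _ ≤ Q.card * (h+1) + (K+1) * (h * (l+1)) := by
          refine add_le_add hA2c ?_
          refine Finset.card_biUnion_le.trans ?_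
          refine (Finset.sum_le_sum hRkc).trans ?_
          rw [Finset.sum_const, Finset.card_range, smul_eq_mul]
      _ = _ := by ring
  calc D.card ≤ _ := Finset.card_le_card hcover
    _ ≤ _ := Finset.card_union_le _ _
    _ ≤ _ := by
        refine add_le_add hGc ?_
        refine Finset.card_biUnion_le.trans ?_
        refine (Finset.sum_le_sum (fun x _ => hmain x)).trans ?_
        rw [Finset.sum_const, smul_eq_mul]

end dual

end Pool.Agent.MSA.LD
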