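import Pool.Agent.MSA.Laminar

/-!
Deterministic hop count: number of non-cheapest edges of a minimal arborescence.
-/

set_option linter.unusedVariables false
set_option linter.unusedSectionVars false
set_option linter.unnecessarySimpa false

open scoped BigOperators

namespace Pool.Agent.MSA.LD

variable {V : Type*} [Fintype V] [DecidableEq V]

/-- `y` is a laminar dual solution for the arborescence `M`. -/
structure IsDual (r : V) (γ : V → V → ℝ) (y : Finset V → ℝ) (M : V → V) : Prop where
  nonneg : ∀ S, 0 ≤ y S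
  good : ∀ S, y S ≠ 0 → S.Nonempty ∧ r ∉ S
  feas : ∀ u v, u ≠ v → leave y u v ≤ γ u v
  lam : ∀ S T, y S ≠ 0 → y T ≠ 0 → S ⊆ T ∨ T ⊆ S ∨ Disjoint S T
  arb : IsArb r M
  tight : ∀ u, u ≠ r → leave y u (M u) = γ u (M u)
  exit : ∀ S, y S ≠ 0 → ∃! u, u ∈ S ∧ M u ∉ S

theorem exists_isDual {r : V} {γ : V → V → ℝ} (hγ : ∀ u v, 0 ≤ γ u v) {M : V → V}
    (hM : IsMinArb r γ M) : ∃ y, IsDual r γ y M := by
  obtain ⟨y, h1, h2, h3, h4, h5⟩ := exists_laminar_dual r γ hγ
  exact ⟨y, h1, h2, h3, h4, hM.1, (h5 M hM).1, (h5 M hM).2⟩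

lemma IsArb.no_cycle {r : V} {M : V → V} (h : IsArb r M) {e : V} {p : ℕ} (hp : 0 < p)
    (he : M^[p] e = e) : e = r := by
  obtain ⟨k, hk⟩ := h.2 e
  have h1 : ∀ n, M^[n * p] e = e := by
    intro n
    induction n with
    | zero => simp
    | succ n ih => rw [Nat.succ_mul, Function.iterate_add_apply, he, ih]
  have h2 : ∀ n, M^[n + k] e = r := by
    intro n
    induction n with
    | zero => simpa using hk
    | succ n ih =>
      rw [Nat.succ_add, Function.iterate_succ_apply', ih, h.1]
  have h3 : k ≤ k * p := Nat.le_mul_of_pos_right k hp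
  have h4 := h2 (k * p - k)
  rw [Nat.sub_add_cancel h3] at h4
  exact (h1 k).symm.trans h4

lemma IsArb.iterate_inj {r : V} {M : V → V} (h : IsArb r M) {x : V} {i j : ℕ} (hij : i < j)
    (he : M^[i] x = M^[j] x) : M^[i] x = r := by
  have : M^[j - i] (M^[i] x) = M^[i] x := by
    rw [← Function.iterate_add_apply, Nat.sub_add_cancel hij.le, he]
  exact h.no_cycle (Nat.sub_pos_of_lt hij) this

section dual

variable {r : V} {γ : V → V → ℝ} {y : Finset V → ℝ} {M : V → V}

/-- once the path leaves `A` it never returns. -/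
lemma IsDual.stay_out (h : IsDual r γ y M) {A : Finset V} (hA : y A ≠ 0) {x : V} (hx : x ∈ A)
    {i : ℕ} (hi : M^[i] x ∉ A) : ∀ j, i ≤ j → M^[j] x ∉ A := by
  classical
  intro j hij hj
  -- first exit
  have hex : ∃ a, M^[a] x ∈ A ∧ M^[a+1] x ∉ A ∧ a < i := by
    by_contra hcon
    push Not at hcon
    have : ∀ a, a ≤ i → M^[a] x ∈ A := by
      intro a
      induction a with
      | zero => intro _; simpa using hx
      | succ a ih =>
        intro ha
        by_contra hn
        have := hcon a (ih (by omega)) hn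
        omega
    exact hi (this i le_rfl)
  obtain ⟨a, ha1, ha2, hai⟩ := hex
  -- last exit
  have hex2 : ∃ b, j ≤ b ∧ M^[b] x ∈ A ∧ M^[b+1] x ∉ A := by
    by_contra hcon
    push Not at hcon
    have hall : ∀ d, M^[j + d] x ∈ A := by
      intro d
      induction d with
      | zero => simpa using hj
      | succ d ih => exact hcon (j + d) (by omega) ih
    obtain ⟨k, hk⟩ := h.arb.2 x
    have h2 : ∀ n, M^[n + k] x = r := by
      intro n
      induction n with
      | zero => simpa using hk
      | succ n ih =>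
        rw [Nat.succ_add, Function.iterate_succ_apply', ih, h.arb.1]
    have h3 := hall k
    rw [h2 j] at h3
    exact (h.good A hA).2 h3
  obtain ⟨b, hjb, hb1, hb2⟩ := hex2
  rw [Function.iterate_succ_apply'] at ha2 hb2
  have heq := (h.exit A hA).unique ⟨ha1, ha2⟩ ⟨hb1, hb2⟩
  have := h.arb.iterate_inj (show a < b by omega) heq
  exact (h.good A hA).2 (this ▸ ha1)

/-- the absorption time. -/
noncomputable def T (y : Finset V → ℝ) (x v : V) : ℝ := leave y x v

lemma IsDual.T_le (h : IsDual r γ y M) (x u v : V) (huv : u ≠ v) : T y x v ≤ T y x u + γ u v := by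
  have h1 : leave y x v ≤ leave y x u + leave y u v := by
    unfold leave
    rw [← Finset.sum_add_distrib]
    refine Finset.sum_le_sum (fun A _ => ?_)
    have hy := h.nonneg A
    have : ind x v A ≤ ind x u A + ind u v A := by
      unfold ind
      by_cases h1 : x ∈ A <;> by_cases h2 : u ∈ A <;> by_cases h3 : v ∈ A <;> simp [-Function.iterate_succ, h1, h2, h3]
    nlinarith
  have := h.feas u v huv
  unfold T
  linarith

lemma IsDual.T_path (h : IsDual r γ y M) (x : V) {R : ℝ} (hR : 0 ≤ R) (q : ℕ → V) (n : ℕ)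
    (hq : ∀ j < n, q j = q (j+1) ∨ γ (q j) (q (j+1)) ≤ R) : T y x (q n) ≤ T y x (q 0) + n * R := by
  induction n with
  | zero => simp
  | succ n ih =>
    have h1 := ih (fun j hj => hq j (by omega))
    have h2 : T y x (q (n+1)) ≤ T y x (q n) + R := by
      by_cases he : q n = q (n+1)
      · rw [he]; linarith
      · have h3 := h.T_le x (q n) (q (n+1)) he
        rcases hq n (by omega) with h4 | h4
        · exact absurd h4 he
        · linarith
    push_cast
    linarith

/-- the side weight. -/
noncomputable def side (y : Finset V → ℝ) (x p q : V) : ℝ :=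
  ∑ A : Finset V, if p ∈ A ∧ q ∉ A ∧ x ∉ A then y A else 0

lemma IsDual.side_nonneg (h : IsDual r γ y M) (x p q : V) : 0 ≤ side y x p q := by
  unfold side
  refine Finset.sum_nonneg (fun A _ => ?_)
  split_ifs
  · exact h.nonneg A
  · exact le_rfl

lemma IsDual.exists_side (h : IsDual r γ y M) {x p q : V} (hs : 0 < side y x p q) :
    ∃ A, y A ≠ 0 ∧ p ∈ A ∧ q ∉ A ∧ x ∉ A := by
  by_contra hcon
  push Not at hcon
  have : side y x p q = 0 := by
    unfold side
    refine Finset.sum_eq_zero (fun A _ => ?_)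
    split_ifs with hA
    · by_contra hy
      exact hA.2.2 (hcon A hy hA.1 hA.2.1)
    · rfl
  linarith

lemma IsDual.T_mono_step (h : IsDual r γ y M) (x : V) (j : ℕ) :
    T y x (M^[j] x) ≤ T y x (M^[j+1] x) := by
  unfold T leave
  refine Finset.sum_le_sum (fun A _ => ?_)
  by_cases hA : y A = 0
  · simp [hA]
  · have hy := h.nonneg A
    have : ind x (M^[j] x) A ≤ ind x (M^[j+1] x) A := by
      unfold ind
      by_cases h1 : x ∈ A
      · by_cases h2 : M^[j] x ∈ A
        · simp [-Function.iterate_succ, h2]; split_ifs <;> norm_num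
        · have h3 := h.stay_out hA h1 h2 (j+1) (by omega)
          simp [-Function.iterate_succ, h1, h2, h3]
      · simp [-Function.iterate_succ, h1]
    exact mul_le_mul_of_nonneg_right this hy

lemma IsDual.T_mono (h : IsDual r γ y M) (x : V) : Monotone (fun j => T y x (M^[j] x)) :=
  monotone_nat_of_le_succ (h.T_mono_step x)

lemma IsDual.step_eq (h : IsDual r γ y M) (x : V) (j : ℕ) (hj : M^[j] x ≠ r) :
    γ (M^[j] x) (M^[j+1] x) = (T y x (M^[j+1] x) - T y x (M^[j] x)) +
      side y x (M^[j] x) (M^[j+1] x) := by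
  have h1 := h.tight (M^[j] x) hj
  rw [← Function.iterate_succ_apply' M j x] at h1
  rw [← h1]
  unfold T leave side
  rw [← Finset.sum_sub_distrib, ← Finset.sum_add_distrib]
  refine Finset.sum_congr rfl (fun A _ => ?_)
  by_cases hA : y A = 0
  · simp [hA]
  · unfold ind
    by_cases h1 : x ∈ A
    · by_cases h2 : M^[j] x ∈ A
      · by_cases h3 : M^[j+1] x ∈ A <;> simp [-Function.iterate_succ, h1, h2, h3]
      · have h3 := h.stay_out hA h1 h2 (j+1) (by omega)
        simp [-Function.iterate_succ, h1, h2, h3]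
    · by_cases h2 : M^[j] x ∈ A <;> by_cases h3 : M^[j+1] x ∈ A <;> simp [-Function.iterate_succ, h1, h2, h3]

lemma IsDual.exists_exit (h : IsDual r γ y M) {A : Finset V} (hA : y A ≠ 0) {x : V} (hx : x ∈ A) :
    ∃ j, M^[j] x ∈ A ∧ M^[j+1] x ∉ A := by
  by_contra hcon
  push Not at hcon
  have hall : ∀ d, M^[d] x ∈ A := by
    intro d
    induction d with
    | zero => simpa using hx
    | succ d ih => exact hcon d ih
  obtain ⟨k, hk⟩ := h.arb.2 x
  exact (h.good A hA).2 (hk ▸ hall k)

/-- sets of the dual support are closed under zero-cost maps. -/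
lemma IsDual.closed (h : IsDual r γ y M) {g : V → V} (hg : ∀ u, γ u (g u) = 0)
    {A : Finset V} (hA : y A ≠ 0) {u : V} (hu : u ∈ A) : g u ∈ A := by
  by_contra hn
  have hne : u ≠ g u := fun he => hn (he ▸ hu)
  have h1 := le_leave h.nonneg hu hn
  have h2 := h.feas u (g u) hne
  rw [hg u] at h2
  have h3 := h.nonneg A
  exact hA (le_antisymm (h1.trans h2) h3)

/-- every expensive edge of `M` is a jump of the absorption time from a vertex of `Q`. -/
lemma IsDual.exists_jump (h : IsDual r γ y M) {g : V → V} (hg : ∀ u, γ u (g u) = 0)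
    {Q : Finset V} (hQ : ∀ A : Finset V, A.Nonempty → (∀ u ∈ A, g u ∈ A) → ∃ x ∈ A, x ∈ Q)
    {u : V} (hur : u ≠ r) (hu : 0 < γ u (M u)) :
    ∃ x ∈ Q, ∃ j, M^[j] x = u ∧ T y x (M^[j] x) < T y x (M^[j+1] x) := by
  classical
  have h0 : 0 < leave y u (M u) := by rw [h.tight u hur]; exact hu
  obtain ⟨A, hA, huA, hMA⟩ : ∃ A, y A ≠ 0 ∧ u ∈ A ∧ M u ∉ A := by
    by_contra hcon
    push Not at hcon
    have : leave y u (M u) = 0 := by
      unfold leave
      refine Finset.sum_eq_zero (fun A _ => ?_)
      unfold ind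
      split_ifs with h1
      · by_cases hy : y A = 0
        · rw [hy]; ring
        · exact absurd (hcon A hy h1.1) h1.2
      · ring
    linarith
  obtain ⟨x, hxA, hxQ⟩ := hQ A (h.good A hA).1 (fun u hu => h.closed hg hA hu)
  obtain ⟨j, hj1, hj2⟩ := h.exists_exit hA hxA
  have hj2' := hj2
  rw [Function.iterate_succ_apply'] at hj2'
  have heq := (h.exit A hA).unique ⟨hj1, hj2'⟩ ⟨huA, hMA⟩
  refine ⟨x, hxQ, j, heq, ?_⟩
  unfold T leave
  refine Finset.sum_lt_sum (fun B _ => ?_) ⟨A, Finset.mem_univ A, ?_⟩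
  · by_cases hB : y B = 0
    · simp [hB]
    · have hy := h.nonneg B
      have : ind x (M^[j] x) B ≤ ind x (M^[j+1] x) B := by
        unfold ind
        by_cases h1 : x ∈ B
        · by_cases h2 : M^[j] x ∈ B
          · simp [-Function.iterate_succ, h2]; split_ifs <;> norm_num
          · have h3 := h.stay_out hB h1 h2 (j+1) (by omega)
            simp [-Function.iterate_succ, h1, h2, h3]
        · simp [-Function.iterate_succ, h1]
      exact mul_le_mul_of_nonneg_right this hy
  · have hy : 0 < y A := lt_of_le_of_ne (h.nonneg A) (Ne.symm hA)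
    simp [-Function.iterate_succ, ind, hxA, hj1, hj2, hy]

/-- side sets at different times are disjoint. -/
lemma IsDual.side_disjoint (h : IsDual r γ y M) {x : V} {i j : ℕ}
    (hij : T y x (M^[i] x) < T y x (M^[j] x)) {A B : Finset V} (hA : y A ≠ 0) (hB : y B ≠ 0)
    (hiA : M^[i] x ∈ A) (hxA : x ∉ A) (hjB : M^[j] x ∈ B) (hxB : x ∉ B) : Disjoint A B := by
  classical
  obtain ⟨S, hS, hxS, hiS, hjS⟩ : ∃ S, y S ≠ 0 ∧ x ∈ S ∧ M^[i] x ∈ S ∧ M^[j] x ∉ S := by
    by_contra hcon
    push Not at hcon
    have : T y x (M^[j] x) ≤ T y x (M^[i] x) := by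
      unfold T leave
      refine Finset.sum_le_sum (fun S _ => ?_)
      by_cases hS : y S = 0
      · simp [hS]
      · have hy := h.nonneg S
        refine mul_le_mul_of_nonneg_right ?_ hy
        unfold ind
        by_cases h1 : x ∈ S
        · by_cases h2 : M^[i] x ∈ S
          · have h3 := hcon S hS h1 h2
            simp [h3]
            split_ifs <;> norm_num
          · simp [-Function.iterate_succ, h1, h2]
            split_ifs <;> norm_num
        · simp [-Function.iterate_succ, h1]
    linarith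
  have hAS : A ⊆ S := by
    rcases h.lam A S hA hS with h1 | h1 | h1
    · exact h1
    · exact absurd (h1 hxS) hxA
    · exact absurd hiS (Finset.disjoint_left.mp h1 hiA)
  have hBS : Disjoint B S := by
    rcases h.lam B S hB hS with h1 | h1 | h1
    · exact absurd (h1 hjB) hjS
    · exact absurd (h1 hxS) hxB
    · exact h1
  exact (Finset.disjoint_of_subset_right hAS hBS).symm

end dual

end Pool.Agent.MSA.LD
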