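import Mathlib

/-!
Laminar dual solution of the minimum spanning arborescence problem
(Edmonds / Fulkerson), in the form: there is a laminar dual `y` for which every
minimal arborescence satisfies complementary slackness.
-/

set_option linter.unusedVariables false
set_option linter.unusedSectionVars false

open scoped BigOperators

namespace Pool.Agent.MSA.LD

variable {V : Type*} [Fintype V] [DecidableEq V]

/-- `M` is a spanning arborescence rooted at `r` (parent function, `M r = r`). -/
def IsArb (r : V) (M : V → V) : Prop := M r = r ∧ ∀ u, ∃ k : ℕ, M^[k] u = r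

/-- cost of a parent function. -/
noncomputable def arbCost (r : V) (c : V → V → ℝ) (M : V → V) : ℝ :=
  ∑ u ∈ Finset.univ.erase r, c u (M u)

def IsMinArb (r : V) (c : V → V → ℝ) (M : V → V) : Prop :=
  IsArb r M ∧ ∀ M', IsArb r M' → arbCost r c M ≤ arbCost r c M'

/-- indicator that the edge `u → v` leaves `A`. -/
noncomputable def ind (u v : V) (A : Finset V) : ℝ := if u ∈ A ∧ v ∉ A then 1 else 0

/-- total weight of the sets containing `u` and not `v`. -/
noncomputable def leave (y : Finset V → ℝ) (u v : V) : ℝ := ∑ A : Finset V, ind u v A * y A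

lemma ind_nonneg (u v : V) (A : Finset V) : 0 ≤ ind u v A := by
  unfold ind; split_ifs <;> norm_num

/-- feasible dual vectors. -/
def Feas (r : V) (c : V → V → ℝ) : Set (Finset V → ℝ) :=
  {y | (∀ S, 0 ≤ y S) ∧ (∀ S, ¬ (S.Nonempty ∧ r ∉ S) → y S = 0) ∧
    ∀ u v, u ≠ v → leave y u v ≤ c u v}

lemma continuous_leave (u v : V) : Continuous (fun y : Finset V → ℝ => leave y u v) := by
  unfold leave
  fun_prop

lemma le_leave {y : Finset V → ℝ} (hy : ∀ S, 0 ≤ y S) {u v : V} {S : Finset V}
    (hu : u ∈ S) (hv : v ∉ S) : y S ≤ leave y u v := by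
  unfold leave
  have h := Finset.single_le_sum (f := fun A => ind u v A * y A) (s := Finset.univ)
    (fun A _ => mul_nonneg (ind_nonneg u v A) (hy A)) (Finset.mem_univ S)
  simpa [ind, hu, hv] using h

lemma isCompact_feas (r : V) (c : V → V → ℝ) (hc : ∀ u v, 0 ≤ c u v) :
    IsCompact (Feas r c) := by
  classical
  set B : ℝ := ∑ u, c u r with hB
  have hsub : Feas r c ⊆ Set.pi Set.univ (fun _ : Finset V => Set.Icc (0:ℝ) B) := by
    intro y hy S _
    refine ⟨hy.1 S, ?_⟩
    by_cases hS : S.Nonempty ∧ r ∉ S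
    · obtain ⟨⟨u, hu⟩, hr⟩ := hS
      have hur : u ≠ r := fun h => hr (h ▸ hu)
      calc y S ≤ leave y u r := le_leave hy.1 hu hr
        _ ≤ c u r := hy.2.2 u r hur
        _ ≤ B := Finset.single_le_sum (f := fun u => c u r) (fun u _ => hc u r) (Finset.mem_univ u)
    · rw [hy.2.1 S hS]
      exact Finset.sum_nonneg (fun u _ => hc u r)
  have hclosed : IsClosed (Feas r c) := by
    have h1 : IsClosed {y : Finset V → ℝ | ∀ S, 0 ≤ y S} := by
      rw [Set.ofPred_forall]
      exact isClosed_iInter (fun S => isClosed_le continuous_const (continuous_apply S))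
    have h2 : IsClosed {y : Finset V → ℝ | ∀ S, ¬ (S.Nonempty ∧ r ∉ S) → y S = 0} := by
      rw [Set.ofPred_forall]
      refine isClosed_iInter (fun S => ?_)
      rw [Set.ofPred_forall]
      exact isClosed_iInter (fun _ => isClosed_eq (continuous_apply S) continuous_const)
    have h3 : IsClosed {y : Finset V → ℝ | ∀ u v, u ≠ v → leave y u v ≤ c u v} := by
      rw [Set.ofPred_forall]
      refine isClosed_iInter (fun u => ?_)
      rw [Set.ofPred_forall]
      refine isClosed_iInter (fun v => ?_)
      rw [Set.ofPred_forall]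
      exact isClosed_iInter (fun _ => isClosed_le (continuous_leave u v) continuous_const)
    have : Feas r c = {y : Finset V → ℝ | ∀ S, 0 ≤ y S} ∩
        ({y : Finset V → ℝ | ∀ S, ¬ (S.Nonempty ∧ r ∉ S) → y S = 0} ∩
        {y : Finset V → ℝ | ∀ u v, u ≠ v → leave y u v ≤ c u v}) := by
      ext y; simp [Feas]
    rw [this]
    exact h1.inter (h2.inter h3)
  exact (isCompact_univ_pi (fun _ => isCompact_Icc)).of_isClosed_subset hclosed hsub

/-- the concave potential. -/
noncomputable def phi (V : Type*) [Fintype V] (s : ℕ) : ℝ :=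
  (s : ℝ) * (2 * (Fintype.card V : ℝ) - s)

noncomputable def tot (y : Finset V → ℝ) : ℝ := ∑ A : Finset V, y A
noncomputable def psi (y : Finset V → ℝ) : ℝ := ∑ A : Finset V, phi V A.card * y A

/-- an extremal dual vector: maximal total, then minimal potential. -/
lemma exists_extremal (r : V) (c : V → V → ℝ) (hc : ∀ u v, 0 ≤ c u v) :
    ∃ y ∈ Feas r c, (∀ z ∈ Feas r c, tot z ≤ tot y) ∧
      ∀ z ∈ Feas r c, tot z = tot y → psi y ≤ psi z := by
  have hK := isCompact_feas r c hc
  have hne : (Feas r c).Nonempty := by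
    refine ⟨fun _ => 0, fun _ => le_rfl, fun _ _ => rfl, fun u v _ => ?_⟩
    simp [leave, hc u v]
  have hct : Continuous (tot : (Finset V → ℝ) → ℝ) := by unfold tot; fun_prop
  have hcp : Continuous (psi : (Finset V → ℝ) → ℝ) := by unfold psi; fun_prop
  obtain ⟨y0, hy0, hmax⟩ := hK.exists_isMaxOn hne hct.continuousOn
  have hK' : IsCompact (Feas r c ∩ {z | tot z = tot y0}) :=
    hK.inter_right (isClosed_eq hct continuous_const)
  obtain ⟨y, hy, hmin⟩ := hK'.exists_isMinOn ⟨y0, hy0, rfl⟩ hcp.continuousOn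
  refine ⟨y, hy.1, fun z hz => ?_, fun z hz h => ?_⟩
  · rw [hy.2]; exact hmax hz
  · exact hmin ⟨hz, h.trans hy.2⟩

/-! ### perturbations -/

lemma sum_mul_single (g : Finset V → ℝ) (A : Finset V) (e : ℝ) :
    ∑ B : Finset V, g B * (Pi.single A e : Finset V → ℝ) B = g A * e := by
  rw [Finset.sum_eq_single A]
  · simp
  · intro B _ hB; simp [Pi.single_eq_of_ne hB]
  · intro h; exact absurd (Finset.mem_univ A) h

lemma leave_add (y z : Finset V → ℝ) (u v : V) : leave (y + z) u v = leave y u v + leave z u v := by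
  unfold leave
  rw [← Finset.sum_add_distrib]
  refine Finset.sum_congr rfl (fun A _ => ?_)
  simp [mul_add]

lemma leave_single (A : Finset V) (e : ℝ) (u v : V) :
    leave (Pi.single A e) u v = ind u v A * e := sum_mul_single _ A e

lemma tot_add (y z : Finset V → ℝ) : tot (y + z) = tot y + tot z := by
  unfold tot; simp [Finset.sum_add_distrib]

lemma tot_single (A : Finset V) (e : ℝ) : tot (Pi.single A e) = e := by
  have := sum_mul_single (fun _ => (1:ℝ)) A e
  simpa [tot] using this

lemma psi_add (y z : Finset V → ℝ) : psi (y + z) = psi y + psi z := by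
  unfold psi
  rw [← Finset.sum_add_distrib]
  refine Finset.sum_congr rfl (fun A _ => ?_)
  simp [mul_add]

lemma psi_single (A : Finset V) (e : ℝ) : psi (Pi.single A e) = phi V A.card * e :=
  sum_mul_single (fun B => phi V B.card) A e

lemma exists_pos_le {ι : Type*} [Finite ι] (f : ι → ℝ) (hf : ∀ i, 0 < f i) :
    ∃ e : ℝ, 0 < e ∧ ∀ i, e ≤ f i := by
  rcases isEmpty_or_nonempty ι with h | h
  · exact ⟨1, one_pos, fun i => (h.false i).elim⟩
  · obtain ⟨i, hi⟩ := Finite.exists_min f
    exact ⟨f i, hf i, hi⟩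

/-- a uniform lower bound for the slack of all non-tight pairs. -/
lemma exists_slack (y : Finset V → ℝ) (c : V → V → ℝ) :
    ∃ e : ℝ, 0 < e ∧ ∀ u v, leave y u v < c u v → e ≤ c u v - leave y u v := by
  obtain ⟨e, he, h⟩ := exists_pos_le
    (fun p : {p : V × V // leave y p.1 p.2 < c p.1 p.2} => c p.1.1 p.1.2 - leave y p.1.1 p.1.2)
    (fun p => sub_pos.mpr p.2)
  exact ⟨e, he, fun u v huv => h ⟨(u, v), huv⟩⟩

lemma phi_cross {a s t b : ℕ} (h : a + b = s + t) (h1 : a < s) (h2 : a < t) :
    phi V a + phi V b < phi V s + phi V t := by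
  unfold phi
  have h' : (a : ℝ) + b = s + t := by exact_mod_cast h
  have h1' : (a : ℝ) < s := by exact_mod_cast h1
  have h2' : (a : ℝ) < t := by exact_mod_cast h2
  have hb : (b : ℝ) = s + t - a := by linarith
  have hpos : 0 < ((s : ℝ) - a) * (t - a) := mul_pos (by linarith) (by linarith)
  rw [hb]
  nlinarith [hpos]

lemma phi_lt {A S : Finset V} (h : A ⊂ S) : phi V A.card < phi V S.card := by
  unfold phi
  have h1 : (A.card : ℝ) < S.card := by exact_mod_cast Finset.card_lt_card h
  have h2 : (S.card : ℝ) ≤ Fintype.card V := by exact_mod_cast Finset.card_le_univ S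
  nlinarith [h1, h2]

lemma ind_submod (u v : V) (S T : Finset V) :
    ind u v (S ∩ T) + ind u v (S ∪ T) ≤ ind u v S + ind u v T := by
  unfold ind
  by_cases h1 : u ∈ S <;> by_cases h2 : u ∈ T <;> by_cases h3 : v ∈ S <;> by_cases h4 : v ∈ T <;>
    simp [h1, h2, h3, h4]

section extremal

variable {r : V} {c : V → V → ℝ} {y : Finset V → ℝ}

lemma laminar_of_extremal (hy : y ∈ Feas r c)
    (hmin : ∀ z ∈ Feas r c, tot z = tot y → psi y ≤ psi z) :
    ∀ S T, y S ≠ 0 → y T ≠ 0 → S ⊆ T ∨ T ⊆ S ∨ Disjoint S T := by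
  intro S T hS hT
  by_contra hcon
  push Not at hcon
  obtain ⟨h1, h2, h3⟩ := hcon
  have hSg : S.Nonempty ∧ r ∉ S := by by_contra h; exact hS (hy.2.1 S h)
  have hTg : T.Nonempty ∧ r ∉ T := by by_contra h; exact hT (hy.2.1 T h)
  have hSp : 0 < y S := lt_of_le_of_ne (hy.1 S) (Ne.symm hS)
  have hTp : 0 < y T := lt_of_le_of_ne (hy.1 T) (Ne.symm hT)
  set e : ℝ := min (y S) (y T) with he
  have hepos : 0 < e := lt_min hSp hTp
  have hne : (S ∩ T).Nonempty := by
    rw [Finset.not_disjoint_iff_nonempty_inter] at h3; exact h3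
  have hST : S ≠ T := fun h => h1 (h ▸ Finset.Subset.refl _)
  have hIS : S ∩ T ≠ S := fun h => h1 (Finset.inter_eq_left.mp h)
  have hIT : S ∩ T ≠ T := fun h => h2 (Finset.inter_eq_right.mp h)
  have hUS : S ∪ T ≠ S := fun h => h2 (Finset.union_eq_left.mp h)
  have hUT : S ∪ T ≠ T := fun h => h1 (Finset.union_eq_right.mp h)
  set z : Finset V → ℝ := y + (Pi.single (S ∩ T) e + Pi.single (S ∪ T) e +
    Pi.single S (-e) + Pi.single T (-e)) with hz
  have hzval : ∀ A, z A = y A + ((Pi.single (S ∩ T) e : Finset V → ℝ) A +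
      (Pi.single (S ∪ T) e : Finset V → ℝ) A +
      (Pi.single S (-e) : Finset V → ℝ) A + (Pi.single T (-e) : Finset V → ℝ) A) := by
    intro A; rfl
  have hsn : ∀ (B A : Finset V), 0 ≤ (Pi.single B e : Finset V → ℝ) A := by
    intro B A
    by_cases h : A = B
    · subst h; simp [hepos.le]
    · simp [Pi.single_eq_of_ne h]
  have hzf : z ∈ Feas r c := by
    refine ⟨fun A => ?_, fun A hA => ?_, fun u v huv => ?_⟩
    · rw [hzval]
      have i1 := hsn (S ∩ T) A
      have i2 := hsn (S ∪ T) A
      by_cases hAS : A = S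
      · subst hAS
        have : (Pi.single T (-e) : Finset V → ℝ) A = 0 := Pi.single_eq_of_ne hST _
        rw [this, Pi.single_eq_same]
        have := min_le_left (y A) (y T)
        linarith
      · have e1 : (Pi.single S (-e) : Finset V → ℝ) A = 0 := Pi.single_eq_of_ne hAS _
        by_cases hAT : A = T
        · subst hAT
          rw [e1, Pi.single_eq_same]
          have := min_le_right (y S) (y A)
          linarith
        · have e2 : (Pi.single T (-e) : Finset V → ℝ) A = 0 := Pi.single_eq_of_ne hAT _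
          rw [e1, e2]
          have := hy.1 A
          linarith
    · have a1 : A ≠ S ∩ T := by
        rintro rfl; exact hA ⟨hne, fun h => hSg.2 (Finset.mem_inter.mp h).1⟩
      have a2 : A ≠ S ∪ T := by
        rintro rfl
        refine hA ⟨hSg.1.mono Finset.subset_union_left, fun h => ?_⟩
        rcases Finset.mem_union.mp h with h | h
        · exact hSg.2 h
        · exact hTg.2 h
      have a3 : A ≠ S := by rintro rfl; exact hA hSg
      have a4 : A ≠ T := by rintro rfl; exact hA hTg
      rw [hzval, Pi.single_eq_of_ne a1, Pi.single_eq_of_ne a2, Pi.single_eq_of_ne a3,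
        Pi.single_eq_of_ne a4, hy.2.1 A hA]
      ring
    · have : leave z u v = leave y u v + (ind u v (S ∩ T) + ind u v (S ∪ T)
          - ind u v S - ind u v T) * e := by
        rw [hz, leave_add, leave_add, leave_add, leave_add, leave_single, leave_single,
          leave_single, leave_single]
        ring
      rw [this]
      have h5 := ind_submod u v S T
      have h6 := hy.2.2 u v huv
      nlinarith
  have htot : tot z = tot y := by
    rw [hz, tot_add, tot_add, tot_add, tot_add, tot_single, tot_single, tot_single, tot_single]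
    ring
  have hpsi : psi z = psi y + (phi V (S ∩ T).card + phi V (S ∪ T).card
      - phi V S.card - phi V T.card) * e := by
    rw [hz, psi_add, psi_add, psi_add, psi_add, psi_single, psi_single, psi_single, psi_single]
    ring
  have hle := hmin z hzf htot
  have hcard : (S ∩ T).card + (S ∪ T).card = S.card + T.card := by
    rw [add_comm, Finset.card_union_add_card_inter]
  have hc1 : (S ∩ T).card < S.card :=
    Finset.card_lt_card (lt_of_le_of_ne Finset.inter_subset_left hIS)
  have hc2 : (S ∩ T).card < T.card :=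
    Finset.card_lt_card (lt_of_le_of_ne Finset.inter_subset_right hIT)
  have hlt := phi_cross (V := V) hcard hc1 hc2
  rw [hpsi] at hle
  nlinarith

/-- tight edge. -/
def Tight (c : V → V → ℝ) (y : Finset V → ℝ) (u v : V) : Prop := u ≠ v ∧ leave y u v = c u v

/-- one tight step inside `S`. -/
def TStep (c : V → V → ℝ) (y : Finset V → ℝ) (S : Finset V) (u v : V) : Prop :=
  u ∈ S ∧ v ∈ S ∧ Tight c y u v

lemma strong_of_extremal (hy : y ∈ Feas r c)
    (hmin : ∀ z ∈ Feas r c, tot z = tot y → psi y ≤ psi z)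
    {S : Finset V} (hS : y S ≠ 0) {u v : V} (hu : u ∈ S) (hv : v ∈ S) :
    Relation.ReflTransGen (TStep c y S) u v := by
  classical
  by_contra hcon
  set A : Finset V := S.filter (fun w => Relation.ReflTransGen (TStep c y S) u w) with hA
  have hAS : A ⊂ S := by
    refine ⟨Finset.filter_subset _ _, fun h => hcon ?_⟩
    exact (Finset.mem_filter.mp (h hv)).2
  have huA : u ∈ A := Finset.mem_filter.mpr ⟨hu, Relation.ReflTransGen.refl⟩
  have hSg : S.Nonempty ∧ r ∉ S := by by_contra h; exact hS (hy.2.1 S h)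
  have hAg : A.Nonempty ∧ r ∉ A := ⟨⟨u, huA⟩, fun h => hSg.2 (hAS.1 h)⟩
  have hSp : 0 < y S := lt_of_le_of_ne (hy.1 S) (Ne.symm hS)
  obtain ⟨e0, he0, hslack⟩ := exists_slack y c
  set e : ℝ := min (y S) e0 with he
  have hepos : 0 < e := lt_min hSp he0
  have hne : A ≠ S := hAS.ne
  set z : Finset V → ℝ := y + (Pi.single A e + Pi.single S (-e)) with hz
  have hzval : ∀ B, z B = y B + ((Pi.single A e : Finset V → ℝ) B +
      (Pi.single S (-e) : Finset V → ℝ) B) := fun B => rfl
  have hleave : ∀ a b, leave z a b = leave y a b + (ind a b A - ind a b S) * e := by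
    intro a b
    rw [hz, leave_add, leave_add, leave_single, leave_single]
    ring
  have hzf : z ∈ Feas r c := by
    refine ⟨fun B => ?_, fun B hB => ?_, fun a b hab => ?_⟩
    · rw [hzval]
      by_cases hBS : B = S
      · subst hBS
        rw [Pi.single_eq_same, Pi.single_eq_of_ne (Ne.symm hne)]
        have := min_le_left (y B) e0
        linarith
      · rw [Pi.single_eq_of_ne hBS]
        by_cases hBA : B = A
        · rw [hBA, Pi.single_eq_same]
          have := hy.1 A
          linarith
        · rw [Pi.single_eq_of_ne hBA]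
          have := hy.1 B
          linarith
    · have a1 : B ≠ A := by intro h; rw [h] at hB; exact hB hAg
      have a2 : B ≠ S := by rintro rfl; exact hB hSg
      rw [hzval, Pi.single_eq_of_ne a1, Pi.single_eq_of_ne a2, hy.2.1 B hB]
      ring
    · rw [hleave]
      have hyab := hy.2.2 a b hab
      by_cases haA : a ∈ A
      · have haS : a ∈ S := hAS.1 haA
        by_cases hbA : b ∈ A
        · have hbS : b ∈ S := hAS.1 hbA
          simp [ind, hbA, hbS, hyab]
        · by_cases hbS : b ∈ S
          · have hnt : leave y a b < c a b := by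
              refine lt_of_le_of_ne hyab (fun heq => hbA ?_)
              refine Finset.mem_filter.mpr ⟨hbS, ?_⟩
              exact ((Finset.mem_filter.mp haA).2).tail ⟨haS, hbS, hab, heq⟩
            have := hslack a b hnt
            have h7 : e ≤ e0 := min_le_right _ _
            simp only [ind, haA, hbA, haS, hbS, not_false_eq_true, and_self, not_true_eq_false,
              and_false, if_true, if_false]
            linarith
          · simp [ind, haA, hbA, haS, hbS, hyab]
      · have : ind a b A - ind a b S ≤ 0 := by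
          have h1 : ind a b A = 0 := by simp [ind, haA]
          have h2 := ind_nonneg a b S
          linarith
        nlinarith
  have htot : tot z = tot y := by
    rw [hz, tot_add, tot_add, tot_single, tot_single]; ring
  have hpsi : psi z = psi y + (phi V A.card - phi V S.card) * e := by
    rw [hz, psi_add, psi_add, psi_single, psi_single]; ring
  have hle := hmin z hzf htot
  have hlt := phi_lt hAS
  rw [hpsi] at hle
  nlinarith

lemma root_of_extremal (hy : y ∈ Feas r c) (hmax : ∀ z ∈ Feas r c, tot z ≤ tot y) (u : V) :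
    Relation.ReflTransGen (TStep c y Finset.univ) u r := by
  classical
  by_contra hcon
  set A : Finset V := Finset.univ.filter
    (fun w => Relation.ReflTransGen (TStep c y Finset.univ) u w) with hA
  have huA : u ∈ A := Finset.mem_filter.mpr ⟨Finset.mem_univ _, Relation.ReflTransGen.refl⟩
  have hrA : r ∉ A := fun h => hcon (Finset.mem_filter.mp h).2
  obtain ⟨e, hepos, hslack⟩ := exists_slack y c
  set z : Finset V → ℝ := y + Pi.single A e with hz
  have hzval : ∀ B, z B = y B + (Pi.single A e : Finset V → ℝ) B := fun B => rfl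
  have hzf : z ∈ Feas r c := by
    refine ⟨fun B => ?_, fun B hB => ?_, fun a b hab => ?_⟩
    · rw [hzval]
      by_cases hBA : B = A
      · rw [hBA, Pi.single_eq_same]
        have := hy.1 A
        linarith
      · rw [Pi.single_eq_of_ne hBA]
        have := hy.1 B
        linarith
    · have a1 : B ≠ A := by intro h; rw [h] at hB; exact hB ⟨⟨u, huA⟩, hrA⟩
      rw [hzval, Pi.single_eq_of_ne a1, hy.2.1 B hB]
      ring
    · have hl : leave z a b = leave y a b + ind a b A * e := by
        rw [hz, leave_add, leave_single]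
      rw [hl]
      have hyab := hy.2.2 a b hab
      by_cases haA : a ∈ A
      · by_cases hbA : b ∈ A
        · simp [ind, hbA, hyab]
        · have hnt : leave y a b < c a b := by
            refine lt_of_le_of_ne hyab (fun heq => hbA ?_)
            refine Finset.mem_filter.mpr ⟨Finset.mem_univ _, ?_⟩
            exact ((Finset.mem_filter.mp haA).2).tail
              ⟨Finset.mem_univ _, Finset.mem_univ _, hab, heq⟩
          have := hslack a b hnt
          simp only [ind, haA, hbA, not_false_eq_true, and_self, if_true]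
          linarith
      · simp [ind, haA, hyab]
  have htot : tot z = tot y + e := by rw [hz, tot_add, tot_single]
  have := hmax z hzf
  linarith

end extremal

/-! ### construction of the arborescence -/

/-- one step along `M` inside `S`, not starting at the root `ρ`. -/
def Flow (M : V → V) (S : Finset V) (ρ : V) (a b : V) : Prop := a ∈ S ∧ a ≠ ρ ∧ M a = b

/-- the properties of an internal arborescence of `Δ ⊆ S` rooted at `ρ`. -/
structure Good (E : V → V → Prop) (F : Finset V → Prop) (S Δ : Finset V) (ρ : V) (M : V → V) :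
    Prop where
  step : ∀ w ∈ Δ, w ≠ ρ → M w ∈ Δ ∧ E w (M w)
  flow : ∀ w ∈ Δ, Relation.ReflTransGen (Flow M Δ ρ) w ρ
  out : ∀ T, F T → T ⊂ S → T ⊆ Δ → ρ ∉ T → ∃! w, w ∈ T ∧ M w ∉ T
  inn : ∀ T, F T → T ⊂ S → T ⊆ Δ → ρ ∈ T → ∀ w ∈ T, w ≠ ρ → M w ∈ T

/-- block-closed subsets. -/
def BlockClosed (F : Finset V → Prop) (S Δ : Finset V) : Prop :=
  ∀ T, F T → T ⊂ S → T ⊆ Δ ∨ Disjoint T Δ

lemma exists_block {F : Finset V → Prop}
    (hlam : ∀ S T, F S → F T → S ⊆ T ∨ T ⊆ S ∨ Disjoint S T)
    {S : Finset V} {u : V} (hu : u ∈ S) (hS : S ≠ {u}) :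
    ∃ B : Finset V, u ∈ B ∧ B ⊂ S ∧ BlockClosed F S B ∧ (F B ∨ B = {u}) := by
  classical
  by_cases h : ∃ T, F T ∧ T ⊂ S ∧ u ∈ T
  · have hne : ((Finset.univ : Finset (Finset V)).filter
        (fun T => F T ∧ T ⊂ S ∧ u ∈ T)).Nonempty := by
      obtain ⟨T, hT⟩ := h
      exact ⟨T, Finset.mem_filter.mpr ⟨Finset.mem_univ _, hT⟩⟩
    obtain ⟨B, hB, hmax⟩ := Finset.exists_max_image _ Finset.card hne
    obtain ⟨-, hFB, hBS, huB⟩ := Finset.mem_filter.mp hB
    refine ⟨B, huB, hBS, fun T hT hTS => ?_, Or.inl hFB⟩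
    rcases hlam T B hT hFB with h1 | h1 | h1
    · exact Or.inl h1
    · have h2 := hmax T (Finset.mem_filter.mpr ⟨Finset.mem_univ _, hT, hTS, h1 huB⟩)
      exact Or.inl (Finset.eq_of_subset_of_card_le h1 h2).symm.subset
    · exact Or.inr h1
  · refine ⟨{u}, Finset.mem_singleton_self u, ?_, fun T hT hTS => ?_, Or.inr rfl⟩
    · exact lt_of_le_of_ne (Finset.singleton_subset_iff.mpr hu) (Ne.symm hS)
    · right
      rw [Finset.disjoint_singleton_right]
      exact fun huT => h ⟨T, hT, hTS, huT⟩

lemma exists_crossing {R : V → V → Prop} {Δ : Finset V} {w ρ : V}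
    (h : Relation.ReflTransGen R w ρ) (hρ : ρ ∈ Δ) (hw : w ∉ Δ) :
    ∃ a b, R a b ∧ a ∉ Δ ∧ b ∈ Δ := by
  induction h using Relation.ReflTransGen.head_induction_on with
  | refl => exact absurd hρ hw
  | @head a b hab _ ih =>
    by_cases hb : b ∈ Δ
    · exact ⟨a, b, hab, hw, hb⟩
    · exact ih hb

theorem exists_good {E : V → V → Prop} {F : Finset V → Prop}
    (hlam : ∀ S T, F S → F T → S ⊆ T ∨ T ⊆ S ∨ Disjoint S T)
    (hne : ∀ T, F T → T.Nonempty)
    (hstr : ∀ T, F T → ∀ u ∈ T, ∀ v ∈ T,
      Relation.ReflTransGen (fun a b => a ∈ T ∧ b ∈ T ∧ E a b) u v) :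
    ∀ (n : ℕ) (S : Finset V), S.card ≤ n → ∀ ρ ∈ S,
      (∀ w ∈ S, Relation.ReflTransGen (fun a b => a ∈ S ∧ b ∈ S ∧ E a b) w ρ) →
      ∃ M : V → V, Good E F S S ρ M := by
  classical
  intro n
  induction n with
  | zero =>
    intro S hS ρ hρ
    have : S = ∅ := Finset.card_eq_zero.mp (Nat.le_zero.mp hS)
    rw [this] at hρ
    simp at hρ
  | succ n ih =>
    intro S hS ρ hρ hreach
    -- internal arborescence of a block
    have hblock : ∀ u ∈ S, S ≠ {u} → ∃ B : Finset V, u ∈ B ∧ B ⊂ S ∧ BlockClosed F S B ∧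
        (F B ∨ B = {u}) ∧ ∃ M : V → V, Good E F B B u M := by
      intro u hu hSu
      obtain ⟨B, huB, hBS, hBc, hB⟩ := exists_block hlam hu hSu
      refine ⟨B, huB, hBS, hBc, hB, ?_⟩
      have hcard : B.card ≤ n := by
        have := Finset.card_lt_card hBS
        omega
      refine ih B hcard u huB ?_
      intro w hw
      rcases hB with hB | hB
      · exact hstr B hB w hw u huB
      · rw [hB] at hw
        rw [Finset.mem_singleton.mp hw]
    by_cases hSρ : S = {ρ}
    · refine ⟨id, ⟨?_, ?_, ?_, ?_⟩⟩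
      · intro w hw hne'
        rw [hSρ] at hw
        exact absurd (Finset.mem_singleton.mp hw) hne'
      · intro w hw
        rw [hSρ] at hw
        rw [Finset.mem_singleton.mp hw]
      · intro T hT hTS _ _
        rw [hSρ, Finset.ssubset_singleton_iff] at hTS
        exact absurd (hne T hT) (by rw [hTS]; simp)
      · intro T hT hTS _ _
        rw [hSρ, Finset.ssubset_singleton_iff] at hTS
        exact absurd (hne T hT) (by rw [hTS]; simp)
    -- choose a maximal partial solution
    let P : Finset V → Prop := fun Δ => ρ ∈ Δ ∧ Δ ⊆ S ∧ BlockClosed F S Δ ∧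
      ∃ M : V → V, Good E F S Δ ρ M
    have hP0 : ∃ Δ, P Δ := by
      obtain ⟨B, hρB, hBS, hBc, -, M, hM⟩ := hblock ρ hρ hSρ
      refine ⟨B, hρB, hBS.1, hBc, M, ⟨hM.step, hM.flow, ?_, ?_⟩⟩
      · intro T hT hTS hTB hρT
        have hTB' : T ⊂ B := by
          refine lt_of_le_of_ne hTB (fun h => hρT ?_)
          rw [h]; exact hρB
        exact hM.out T hT hTB' hTB hρT
      · intro T hT hTS hTB hρT w hw hwρ
        rcases eq_or_ne T B with h | h
        · rw [h] at hw ⊢
          exact (hM.step w hw hwρ).1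
        · exact hM.inn T hT (lt_of_le_of_ne hTB h) hTB hρT w hw hwρ
    have hneP : ((Finset.univ : Finset (Finset V)).filter P).Nonempty := by
      obtain ⟨Δ, hΔ⟩ := hP0
      exact ⟨Δ, Finset.mem_filter.mpr ⟨Finset.mem_univ _, hΔ⟩⟩
    obtain ⟨Δ, hΔ, hmax⟩ := Finset.exists_max_image _ Finset.card hneP
    obtain ⟨-, hρΔ, hΔS, hΔc, M, hM⟩ := Finset.mem_filter.mp hΔ
    by_cases hΔeq : Δ = S
    · rw [hΔeq] at hM
      exact ⟨M, hM⟩
    exfalso
    obtain ⟨w0, hw0S, hw0Δ⟩ := Finset.exists_of_ssubset (lt_of_le_of_ne hΔS hΔeq)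
    obtain ⟨a, b, ⟨haS, hbS, hEab⟩, haΔ, hbΔ⟩ := exists_crossing (hreach w0 hw0S) hρΔ hw0Δ
    have hSa : S ≠ {a} := by
      intro h
      rw [h] at hρ
      exact haΔ ((Finset.mem_singleton.mp hρ) ▸ hρΔ)
    obtain ⟨B, haB, hBS, hBc, hBF, MB, hMB⟩ := hblock a haS hSa
    -- B is disjoint from Δ
    have hdisj : Disjoint B Δ := by
      rcases hBF with h | h
      · rcases hΔc B h hBS with h1 | h1
        · exact absurd (h1 haB) haΔ
        · exact h1
      · rw [h, Finset.disjoint_singleton_left]; exact haΔ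
    have hρB : ρ ∉ B := fun h => (Finset.disjoint_left.mp hdisj h) hρΔ
    have haρ : a ≠ ρ := fun h => haΔ (h ▸ hρΔ)
    set M' : V → V := fun w => if w ∈ B then (if w = a then b else MB w) else M w with hM'
    have hM'a : M' a = b := by simp [hM', haB]
    have hM'B : ∀ w ∈ B, w ≠ a → M' w = MB w := by
      intro w hw hwa; simp [hM', hw, hwa]
    have hM'Δ : ∀ w ∈ Δ, M' w = M w := by
      intro w hw
      have : w ∉ B := fun h => Finset.disjoint_left.mp hdisj h hw
      simp [hM', this]
    have hgood : Good E F S (Δ ∪ B) ρ M' := by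
      refine ⟨?_, ?_, ?_, ?_⟩
      · intro w hw hwρ
        rcases Finset.mem_union.mp hw with h | h
        · rw [hM'Δ w h]
          have := hM.step w h hwρ
          exact ⟨Finset.mem_union_left _ this.1, this.2⟩
        · by_cases hwa : w = a
          · rw [hwa, hM'a]
            exact ⟨Finset.mem_union_left _ hbΔ, hEab⟩
          · rw [hM'B w h hwa]
            have := hMB.step w h hwa
            exact ⟨Finset.mem_union_right _ this.1, this.2⟩
      · have hΔflow : ∀ w ∈ Δ, Relation.ReflTransGen (Flow M' (Δ ∪ B) ρ) w ρ := by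
          intro w hw
          refine Relation.ReflTransGen.mono ?_ _ _ (hM.flow w hw)
          rintro x z ⟨hx, hxρ, hxz⟩
          exact ⟨Finset.mem_union_left _ hx, hxρ, by rw [hM'Δ x hx]; exact hxz⟩
        intro w hw
        rcases Finset.mem_union.mp hw with h | h
        · exact hΔflow w h
        · have h1 : Relation.ReflTransGen (Flow M' (Δ ∪ B) ρ) w a := by
            refine Relation.ReflTransGen.mono ?_ _ _ (hMB.flow w h)
            rintro x z ⟨hx, hxa, hxz⟩
            refine ⟨Finset.mem_union_right _ hx, fun hxρ => hρB (hxρ ▸ hx), ?_⟩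
            rw [hM'B x hx hxa]; exact hxz
          have h2 : Flow M' (Δ ∪ B) ρ a b := ⟨Finset.mem_union_right _ haB, haρ, hM'a⟩
          exact (h1.tail h2).trans (hΔflow b hbΔ)
      · intro T hT hTS hTU hρT
        rcases hΔc T hT hTS with h1 | h1
        · obtain ⟨w, hw, hu⟩ := hM.out T hT hTS h1 hρT
          refine ⟨w, ⟨hw.1, by rw [hM'Δ w (h1 hw.1)]; exact hw.2⟩, ?_⟩
          rintro x ⟨hx, hxT⟩
          exact hu x ⟨hx, by rw [← hM'Δ x (h1 hx)]; exact hxT⟩
        · have hTB : T ⊆ B := by
            intro x hx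
            rcases Finset.mem_union.mp (hTU hx) with h | h
            · exact absurd h (Finset.disjoint_left.mp h1 hx)
            · exact h
          have hbT : b ∉ T := fun h => Finset.disjoint_left.mp h1 h hbΔ
          rcases eq_or_ne T B with h | h
          · refine ⟨a, ⟨h ▸ haB, by rw [hM'a]; exact hbT⟩, ?_⟩
            rintro x ⟨hx, hxT⟩
            by_contra hxa
            rw [hM'B x (hTB hx) hxa, h] at hxT
            exact hxT (hMB.step x (hTB hx) hxa).1
          · have hTB' : T ⊂ B := lt_of_le_of_ne hTB h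
            by_cases haT : a ∈ T
            · refine ⟨a, ⟨haT, by rw [hM'a]; exact hbT⟩, ?_⟩
              rintro x ⟨hx, hxT⟩
              by_contra hxa
              rw [hM'B x (hTB hx) hxa] at hxT
              exact hxT (hMB.inn T hT hTB' hTB haT x hx hxa)
            · obtain ⟨w, hw, hu⟩ := hMB.out T hT hTB' hTB haT
              have hwa : w ≠ a := fun h => haT (h ▸ hw.1)
              refine ⟨w, ⟨hw.1, by rw [hM'B w (hTB hw.1) hwa]; exact hw.2⟩, ?_⟩
              rintro x ⟨hx, hxT⟩
              have hxa : x ≠ a := fun h => haT (h ▸ hx)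
              exact hu x ⟨hx, by rw [← hM'B x (hTB hx) hxa]; exact hxT⟩
      · intro T hT hTS hTU hρT w hw hwρ
        rcases hΔc T hT hTS with h1 | h1
        · rw [hM'Δ w (h1 hw)]
          exact hM.inn T hT hTS h1 hρT w hw hwρ
        · exact absurd hρΔ (Finset.disjoint_left.mp h1 hρT)
    have hPnew : P (Δ ∪ B) := by
      refine ⟨Finset.mem_union_left _ hρΔ, Finset.union_subset hΔS hBS.1, ?_, M', hgood⟩
      intro T hT hTS
      rcases hΔc T hT hTS with h1 | h1
      · exact Or.inl (h1.trans Finset.subset_union_left)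
      · rcases hBc T hT hTS with h2 | h2
        · exact Or.inl (h2.trans Finset.subset_union_right)
        · exact Or.inr (Finset.disjoint_union_right.mpr ⟨h1, h2⟩)
    have hcard := hmax (Δ ∪ B) (Finset.mem_filter.mpr ⟨Finset.mem_univ _, hPnew⟩)
    rw [Finset.card_union_of_disjoint hdisj.symm] at hcard
    have : 0 < B.card := Finset.card_pos.mpr ⟨a, haB⟩
    omega

/-! ### the main theorem -/

/-- number of exits of `S`, as a real number. -/
noncomputable def exits (M : V → V) (S : Finset V) : ℕ := (S.filter (fun u => M u ∉ S)).card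

lemma sum_leave (r : V) (y : Finset V → ℝ) (hy : ∀ S, y S ≠ 0 → r ∉ S) (M : V → V) :
    ∑ u ∈ Finset.univ.erase r, leave y u (M u) = ∑ S : Finset V, (exits M S : ℝ) * y S := by
  classical
  unfold leave
  rw [Finset.sum_comm]
  refine Finset.sum_congr rfl (fun S _ => ?_)
  rw [← Finset.sum_mul]
  by_cases hS : y S = 0
  · rw [hS]; ring
  · congr 1
    have hr := hy S hS
    unfold exits
    rw [Finset.card_filter, Nat.cast_sum]
    have h1 : ∑ u ∈ Finset.univ.erase r, ind u (M u) S = ∑ u : V, ind u (M u) S := by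
      rw [← Finset.sum_erase_add _ _ (Finset.mem_univ r)]
      simp [ind, hr]
    rw [h1, ← Finset.sum_filter_add_sum_filter_not Finset.univ (fun u => u ∈ S)]
    have h2 : ∑ u ∈ Finset.univ.filter (fun u => ¬ u ∈ S), ind u (M u) S = 0 := by
      refine Finset.sum_eq_zero (fun u hu => ?_)
      have := (Finset.mem_filter.mp hu).2
      simp [ind, this]
    rw [h2, add_zero]
    have h3 : Finset.univ.filter (fun u => u ∈ S) = S := by ext; simp
    rw [h3]
    refine Finset.sum_congr rfl (fun u hu => ?_)
    by_cases h : M u ∈ S <;> simp [ind, hu, h]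

lemma exits_pos {r : V} {M : V → V} (hM : IsArb r M) {S : Finset V} (hS : S.Nonempty)
    (hr : r ∉ S) : 1 ≤ exits M S := by
  classical
  by_contra h
  have h0 : exits M S = 0 := by omega
  unfold exits at h0
  rw [Finset.card_eq_zero, Finset.filter_eq_empty_iff] at h0
  obtain ⟨u, hu⟩ := hS
  obtain ⟨k, hk⟩ := hM.2 u
  have : ∀ j, M^[j] u ∈ S := by
    intro j
    induction j with
    | zero => simpa using hu
    | succ j ih =>
      rw [Function.iterate_succ_apply']
      have := h0 ih
      push Not at this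
      exact this
  exact hr (hk ▸ this k)

lemma isArb_of_flow {r : V} {M : V → V} (hr : M r = r)
    (h : ∀ w, Relation.ReflTransGen (Flow M Finset.univ r) w r) : IsArb r M := by
  refine ⟨hr, fun u => ?_⟩
  have := h u
  induction this using Relation.ReflTransGen.head_induction_on with
  | refl => exact ⟨0, rfl⟩
  | head hab _ ih =>
    obtain ⟨k, hk⟩ := ih
    refine ⟨k + 1, ?_⟩
    rw [Function.iterate_succ_apply, hab.2.2]
    exact hk

/-- **Laminar dual of the minimum spanning arborescence problem.** -/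
theorem exists_laminar_dual (r : V) (c : V → V → ℝ) (hc : ∀ u v, 0 ≤ c u v) :
    ∃ y : Finset V → ℝ, (∀ S, 0 ≤ y S) ∧ (∀ S, y S ≠ 0 → S.Nonempty ∧ r ∉ S) ∧
      (∀ u v, u ≠ v → leave y u v ≤ c u v) ∧
      (∀ S T, y S ≠ 0 → y T ≠ 0 → S ⊆ T ∨ T ⊆ S ∨ Disjoint S T) ∧
      ∀ M, IsMinArb r c M → (∀ u, u ≠ r → leave y u (M u) = c u (M u)) ∧
        ∀ S, y S ≠ 0 → ∃! u, u ∈ S ∧ M u ∉ S := by
  classical
  obtain ⟨y, hy, hmax, hmin⟩ := exists_extremal r c hc
  have hgood : ∀ S, y S ≠ 0 → S.Nonempty ∧ r ∉ S := by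
    intro S hS; by_contra h; exact hS (hy.2.1 S h)
  have hlam := laminar_of_extremal hy hmin
  refine ⟨y, hy.1, hgood, hy.2.2, hlam, ?_⟩
  -- the tight arborescence
  obtain ⟨M0, hM0⟩ := exists_good (E := Tight c y) (F := fun S => y S ≠ 0) hlam
    (fun T hT => (hgood T hT).1)
    (fun T hT u hu v hv => strong_of_extremal hy hmin hT hu hv)
    (Fintype.card V) Finset.univ (by simp) r (Finset.mem_univ r)
    (fun w _ => root_of_extremal hy hmax w)
  set M1 : V → V := fun w => if w = r then r else M0 w with hM1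
  have hM1r : M1 r = r := by simp [hM1]
  have hM1n : ∀ w, w ≠ r → M1 w = M0 w := by intro w hw; simp [hM1, hw]
  have harb : IsArb r M1 := by
    refine isArb_of_flow hM1r (fun w => ?_)
    refine Relation.ReflTransGen.mono ?_ _ _ (hM0.flow w (Finset.mem_univ w))
    rintro a b ⟨ha, har, hab⟩
    exact ⟨ha, har, by rw [hM1n a har]; exact hab⟩
  have hex1 : ∀ S, y S ≠ 0 → exits M1 S = 1 := by
    intro S hS
    have hr := (hgood S hS).2
    have hSU : S ⊂ Finset.univ := by
      refine lt_of_le_of_ne (Finset.subset_univ S) (fun h => hr ?_)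
      rw [h]; exact Finset.mem_univ r
    obtain ⟨w, hw, hu⟩ := hM0.out S hS hSU (Finset.subset_univ S) hr
    unfold exits
    rw [Finset.card_eq_one]
    refine ⟨w, ?_⟩
    ext x
    rw [Finset.mem_filter, Finset.mem_singleton]
    constructor
    · rintro ⟨hx, hxS⟩
      have hxr : x ≠ r := fun h => hr (h ▸ hx)
      rw [hM1n x hxr] at hxS
      exact hu x ⟨hx, hxS⟩
    · rintro rfl
      have hxr : x ≠ r := fun h => hr (h ▸ hw.1)
      exact ⟨hw.1, by rw [hM1n x hxr]; exact hw.2⟩
  have hyr : ∀ S, y S ≠ 0 → r ∉ S := fun S hS => (hgood S hS).2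
  have hcost1 : arbCost r c M1 = tot y := by
    have h1 : arbCost r c M1 = ∑ u ∈ Finset.univ.erase r, leave y u (M1 u) := by
      refine Finset.sum_congr rfl (fun u hu => ?_)
      have hur : u ≠ r := Finset.ne_of_mem_erase hu
      rw [hM1n u hur]
      exact ((hM0.step u (Finset.mem_univ u) hur).2.2).symm
    rw [h1, sum_leave r y hyr]
    unfold tot
    refine Finset.sum_congr rfl (fun S _ => ?_)
    by_cases hS : y S = 0
    · rw [hS]; ring
    · rw [hex1 S hS]; norm_num
  intro M hM
  have hMarb := hM.1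
  have hne : ∀ u, u ≠ r → u ≠ M u := by
    intro u hur h
    obtain ⟨k, hk⟩ := hMarb.2 u
    have : ∀ j, M^[j] u = u := by
      intro j
      induction j with
      | zero => rfl
      | succ j ih => rw [Function.iterate_succ_apply', ih, ← h]
    exact hur ((this k).symm.trans hk)
  have hcostle : arbCost r c M ≤ tot y := hcost1 ▸ hM.2 M1 harb
  have hA : ∑ u ∈ Finset.univ.erase r, leave y u (M u) ≤ arbCost r c M := by
    refine Finset.sum_le_sum (fun u hu => ?_)
    exact hy.2.2 u (M u) (hne u (Finset.ne_of_mem_erase hu))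
  have hB : tot y ≤ ∑ S : Finset V, (exits M S : ℝ) * y S := by
    unfold tot
    refine Finset.sum_le_sum (fun S _ => ?_)
    by_cases hS : y S = 0
    · rw [hS]; simp
    · have h1 : (1:ℝ) ≤ exits M S := by
        exact_mod_cast exits_pos hMarb (hgood S hS).1 (hgood S hS).2
      nlinarith [hy.1 S]
  have hC := sum_leave r y hyr M
  have heqA : ∑ u ∈ Finset.univ.erase r, leave y u (M u) = arbCost r c M := by linarith
  have heqB : tot y = ∑ S : Finset V, (exits M S : ℝ) * y S := by linarith
  constructor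
  · intro u hur
    have := (Finset.sum_eq_sum_iff_of_le (s := Finset.univ.erase r)
      (f := fun u => leave y u (M u)) (g := fun u => c u (M u))
      (fun u hu => hy.2.2 u (M u) (hne u (Finset.ne_of_mem_erase hu)))).mp heqA
    exact this u (Finset.mem_erase.mpr ⟨hur, Finset.mem_univ u⟩)
  · intro S hS
    have := (Finset.sum_eq_sum_iff_of_le (s := (Finset.univ : Finset (Finset V)))
      (f := fun S => y S) (g := fun S => (exits M S : ℝ) * y S) (by
        intro S _
        by_cases hS : y S = 0
        · simp [hS]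
        · have h1 : (1:ℝ) ≤ exits M S := by
            exact_mod_cast exits_pos hMarb (hgood S hS).1 (hgood S hS).2
          nlinarith [hy.1 S])).mp (by simpa [tot] using heqB)
    have h2 := this S (Finset.mem_univ S)
    have h3 : (exits M S : ℝ) = 1 := by
      have : ((exits M S : ℝ) - 1) * y S = 0 := by linarith
      rcases mul_eq_zero.mp this with h | h
      · linarith
      · exact absurd h hS
    have h4 : exits M S = 1 := by exact_mod_cast h3
    unfold exits at h4
    obtain ⟨w, hw⟩ := Finset.card_eq_one.mp h4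
    have hwm : w ∈ S.filter (fun u => M u ∉ S) := by rw [hw]; exact Finset.mem_singleton_self w
    refine ⟨w, Finset.mem_filter.mp hwm, ?_⟩
    intro x hx
    have : x ∈ S.filter (fun u => M u ∉ S) := Finset.mem_filter.mpr hx
    rw [hw] at this
    exact Finset.mem_singleton.mp this

end Pool.Agent.MSA.LD
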